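import Pool.Agent.K4H47.AL.Thm

/-!
# The minimal lattice packing density: algebraic, or infinitely many densest packings

Let `X = L` or `X = L*`. For every `N` the least value of `δ_X` over the polytopes with at most
`N` vertices is an algebraic number and is attained at a polytope with algebraic vertices, and
`δ_X` has only finitely many local minimum values on the class of these polytopes, all of them
algebraic. The least value for `N = (2k+1)³` exceeds `m_X` at most by the factor `(1+12/k)³`.
The local minimisers `K` of `δ_X` among all convex bodies that have at most `m` densest packings
have finitely many values `δ_X K`, all of them algebraic, for every `m`. If a minimiser has at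
most `m` densest packings, then `m_X` is the least value over the polytopes with at most `52 m`
vertices (`79 m` for `L*`). Either `m_X` is algebraic
and attained at a polytope with algebraic vertices, or no polytope is a minimiser and every
minimiser has infinitely many extreme points and infinitely many densest packings.

Proof: the volume of the hull of `N` points and the densities `δ_X` of the hull are semialgebraic
functions over `ℚ` (a densest lattice has a basis of bounded size in a normal position, and only
finitely many conditions have to be checked), so that the Tarski–Seidenberg theorem applies; a
local minimiser with at most `m` densest packings has at most `52 m` (for `L*`: `79 m`) extreme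
points by `PolytopeOrInfinitelyMany`.
-/

namespace Pool.Agent.Results.MP_3d065d_co.AlgebraicOrInfinitelyMany

open Pool.Agent.TH219.DL Pool.Agent.K4H47.MM Pool.Agent.K4H47.AL

theorem result : Thm dL DensL 52 ∧ Thm dLs DensLs 79 :=
  ⟨thm (T := TouchT) hL mono_PL concl_L fun _ hK => struct_L hK,
    thm (T := fun K S p => TouchT K S p ∨ TouchR K S p) hLs mono_PS concl_Ls
      fun _ hK => struct_Ls hK⟩

end Pool.Agent.Results.MP_3d065d_co.AlgebraicOrInfinitelyMany
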