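import Pool.Agent.K4H61.LS.Cmp

/-!
# Neither ellipsoids nor cylinders minimise the double lattice packing density

`dL`, `dLs` are the densities `δ_L`, `δ_{L*}` of the problem, `mn` is the minimum over all convex
bodies (`Body`), see `Pool.Agent.TH219.DL.Defs`; `Bl 1` is the unit ball, `Cy D` the cylinder
`[0, 1] × D`, `Cube` the unit cube, `Prism` half of it, `Aff M A` says that `A` is an affine image of
`M`, and `pr` is the projection along the first axis.

`δ_{L*} ≤ 2 δ_L`, hence `m_{L*} ≤ 2 m_L < 36/49`, which is smaller than the density `π/√18` of the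
lattice packing of balls and smaller than `3/4`, the density that the double lattice packings of the
base give for every cylinder.  More generally, `δ_{L*}(K)` is bounded from below by the volume of `K`
compared with circumscribed ellipsoids, parallelepipeds, triangular prisms, and with the product of
the longest chord and the shadow in any direction.
-/

set_option autoImplicit false

namespace Pool.Agent.Results.MP_3d065d_co.EllipsoidsNotMinimal

open MeasureTheory
open scoped ENNReal
open Pool.Agent.TH219.DL Pool.Agent.K4H61.LS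
open Pool.Agent.H349R2.Tet (V Bl)

theorem pi_big : (36 / 49 : ℝ) < 0.9922 * (Real.pi * √2 / 6) := by
  have h1 : (3.141592 : ℝ) < Real.pi := Real.pi_gt_d6
  have h2 : (1.414213 : ℝ) < √2 := by
    rw [Real.lt_sqrt (by norm_num)]
    norm_num
  nlinarith

theorem mn_lt {c : ℝ} (hc : (36 / 49 : ℝ) < c) : mn dLs < ENNReal.ofReal c := by
  refine lt_of_le_of_lt mn_dLs_le ?_
  rw [ENNReal.ofReal_lt_ofReal_iff (by linarith)]
  norm_num at hc ⊢
  linarith

theorem result :
    -- the comparison of `δ_{L*}` and `δ_L`, and the upper bound for `m_{L*}`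
    (∀ K : Set V, Body K → dLs K ≤ 2 * dL K) ∧ mn dLs ≤ 2 * mn dL ∧
    mn dLs ≤ ENNReal.ofReal (36 / 49 * (1 - 3 / 10 ^ 17)) ∧
    -- lower bounds for `δ_{L*}(K)`
    (∀ K : Set V, Body K →
      (∀ E, Aff (Bl 1) E → K ⊆ E →
        ENNReal.ofReal (Real.pi * √2 / 6) * volume K ≤ dLs K * volume E) ∧
      (∀ P, Aff Cube P ∨ Aff Prism P → K ⊆ P → volume K ≤ dLs K * volume P) ∧
      (∀ (L : V ≃ₗ[ℝ] V) (l : ℝ), 0 < l →
        (∀ x ∈ L '' K, ∀ t : ℝ, x + ![t, 0, 0] ∈ L '' K → t ≤ l) →
        ENNReal.ofReal (3 / 4) * volume (L '' K)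
          ≤ dLs K * (ENNReal.ofReal l * volume (pr '' (L '' K))))) ∧
    -- hence for the bodies that minimise `δ_{L*}`
    (∀ K : Set V, Body K → dLs K = mn dLs →
      (∀ E, Aff (Bl 1) E → K ⊆ E → volume K < ENNReal.ofReal 0.9922 * volume E) ∧
      (∀ P, Aff Cube P ∨ Aff Prism P → K ⊆ P → volume K < ENNReal.ofReal (36 / 49) * volume P) ∧
      (∀ (L : V ≃ₗ[ℝ] V) (l : ℝ), 0 < l →
        (∀ x ∈ L '' K, ∀ t : ℝ, x + ![t, 0, 0] ∈ L '' K → t ≤ l) →
        volume (L '' K) < ENNReal.ofReal (48 / 49 * l) * volume (pr '' (L '' K)))) ∧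
    -- ellipsoids and cylinders are not minimal
    (∀ E : Set V, Aff (Bl 1) E → mn dLs < dLs E) ∧
    (∀ D : Set (Fin 2 → ℝ), IsCompact D → Convex ℝ D → (interior D).Nonempty →
      ∀ Z : Set V, Aff (Cy D) Z → mn dLs < dLs Z) := by
  have hE : ∀ K : Set V, Body K → ∀ E, Aff (Bl 1) E → K ⊆ E →
      ENNReal.ofReal (Real.pi * √2 / 6) * volume K ≤ dLs K * volume E := by
    intro K hK E hE hKE
    exact mul_vol_le (by positivity) (Dl_aff Dl_ball1 hE) hKE hK
      (Aff_compact (Bl_compact 1 zero_le_one) hE)
  have hP : ∀ K : Set V, Body K → ∀ P, Aff Cube P ∨ Aff Prism P → K ⊆ P →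
      volume K ≤ dLs K * volume P := by
    intro K hK P hP hKP
    rcases hP with hP | hP
    · simpa using mul_vol_le zero_le_one (Dl_aff Dl_cube hP) hKP hK
        (Aff_compact Cube_compact hP)
    · simpa using mul_vol_le zero_le_one (Dl_aff Dl_prism hP) hKP hK
        (Aff_compact Prism_compact hP)
  have hpos : ∀ K : Set V, Body K → volume K ≠ 0 := fun K hK =>
    (lt_of_lt_of_le (isOpen_interior.measure_pos volume hK.2.2)
      (measure_mono interior_subset)).ne'
  refine ⟨fun K hK => dLs_le hK.1, mn_dLs_le_two, mn_dLs_le, fun K hK => ⟨hE K hK, hP K hK,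
    fun L l hl hm => chord_le hK L hl hm⟩, ?_, ?_, ?_⟩
  · intro K hK hmin
    have hlt : dLs K < ENNReal.ofReal (36 / 49) := by
      rw [hmin]
      refine lt_of_le_of_lt mn_dLs_le ?_
      rw [ENNReal.ofReal_lt_ofReal_iff (by norm_num)]
      norm_num
    refine ⟨fun E hE' hKE => ?_, fun P hP' hKP => ?_, fun L l hl hm => ?_⟩
    · have h1 := hE K hK E hE' hKE
      have hEc := Aff_compact (Bl_compact 1 zero_le_one) hE'
      have hE0 : volume E ≠ 0 := fun h0 => hpos K hK (measure_mono_null hKE h0)
      have h2 : ENNReal.ofReal (Real.pi * √2 / 6) * volume K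
          < ENNReal.ofReal (Real.pi * √2 / 6) * (ENNReal.ofReal 0.9922 * volume E) := by
        refine lt_of_le_of_lt h1 ?_
        rw [← mul_assoc, ← ENNReal.ofReal_mul (by positivity)]
        refine (ENNReal.mul_lt_mul_iff_left hE0 hEc.measure_ne_top).2 ?_
        refine hlt.trans ?_
        rw [ENNReal.ofReal_lt_ofReal_iff (by positivity), mul_comm]
        exact pi_big
      exact lt_of_mul_lt_mul_left' h2
    · have h1 := hP K hK P hP' hKP
      have hPc : IsCompact P := by
        rcases hP' with h | h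
        · exact Aff_compact Cube_compact h
        · exact Aff_compact Prism_compact h
      have hP0 : volume P ≠ 0 := fun h0 => hpos K hK (measure_mono_null hKP h0)
      exact lt_of_le_of_lt h1 ((ENNReal.mul_lt_mul_iff_left hP0 hPc.measure_ne_top).2 hlt)
    · have h1 := chord_le hK L hl hm
      have hKL : volume (L '' K) ≠ 0 := by
        have e : L '' K = (fun x => L x + 0) '' K := by simp
        have := Aff_interior hK.2.2 ⟨L, 0, e⟩
        exact (lt_of_lt_of_le (isOpen_interior.measure_pos volume this)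
          (measure_mono interior_subset)).ne'
      have hKc : IsCompact (L '' K) :=
        hK.1.image (LinearMap.continuous_of_finiteDimensional (L : V →ₗ[ℝ] V))
      have hSc : volume (pr '' (L '' K)) ≠ ⊤ := (hKc.image pr_cont).measure_ne_top
      have hS0 : volume (pr '' (L '' K)) ≠ 0 := by
        intro h0
        rw [h0, mul_zero, mul_zero, nonpos_iff_eq_zero, mul_eq_zero] at h1
        rcases h1 with h1 | h1
        · norm_num at h1
        · exact hKL h1
      have hl0 : ENNReal.ofReal l * volume (pr '' (L '' K)) ≠ 0 := by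
        refine mul_ne_zero ?_ hS0
        rw [ne_eq, ENNReal.ofReal_eq_zero, not_le]
        exact hl
      have hlt' : ENNReal.ofReal l * volume (pr '' (L '' K)) ≠ ⊤ :=
        ENNReal.mul_ne_top ENNReal.ofReal_ne_top hSc
      have h2 : ENNReal.ofReal (3 / 4) * volume (L '' K)
          < ENNReal.ofReal (3 / 4) * (ENNReal.ofReal (48 / 49 * l)
            * volume (pr '' (L '' K))) := by
        refine lt_of_le_of_lt h1 ?_
        refine lt_of_lt_of_le ((ENNReal.mul_lt_mul_iff_left hl0 hlt').2 hlt) ?_
        rw [← mul_assoc, ← mul_assoc, ← ENNReal.ofReal_mul (by norm_num),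
          ← ENNReal.ofReal_mul (by norm_num)]
        refine le_of_eq ?_
        congr 2
        ring
      exact lt_of_mul_lt_mul_left' h2
  · intro E hE'
    refine lt_of_lt_of_le (mn_lt (c := Real.pi * √2 / 6) ?_) ?_
    · have := pi_big
      have h0 : 0 < Real.pi * √2 / 6 := by positivity
      linarith
    · have hb := Aff_body ball_body hE'
      exact Dl_dLs (by positivity) hb.1 hb.2.1 (Dl_aff Dl_ball1 hE')
  · intro D hDc hD hne Z hZ
    refine lt_of_lt_of_le (mn_lt (c := 3 / 4) (by norm_num)) ?_
    have hb := Aff_body ⟨Cy_compact hDc, Cy_convex hD, Cy_interior hne⟩ hZ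
    exact Dl_dLs (by norm_num) hb.1 hb.2.1 (Dl_aff (Dl_cyl hDc hD hne) hZ)

end Pool.Agent.Results.MP_3d065d_co.EllipsoidsNotMinimal
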