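import Pool.Agent.K4H96.EX.Summand
import Pool.Agent.K4H96.EX.A
import Pool.Agent.K4H96.EX.B
import Pool.Agent.K4H96.EX.C

/-!
# Bodies with the smallest translative or lattice packing density are extreme for their difference
body and have no positive curvature at a pair of opposite normals

Let `K ⊂ ℝ³` be a convex body.

(1) If `K = (1-s) K0 + s K1`, `0 < s < 1`, where the bodies `K0`, `K1` have the same difference body as `K`
and are not translates of each other, then `δ_T` and `δ_L` of `K0`, or of `K1`, are smaller than those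
of `K`.

(2) If `K = C + (1-t) W - t W`, `0 < t < 1`, with `W` convex, compact, not centrally symmetric, then `δ_T`
and `δ_L` of `C + W` or of `C - W` are smaller than those of `K`.

(3) If `K` is round at two opposite directions `u`, `-u`, then there are bodies `K'` with the same
difference body, arbitrarily close to `K`, for which both densities are smaller.

(4) In particular a body with `δ_T(K) = m_T` or `δ_L(K) = m_L` is not round at two opposite directions.

Proof: `δ_T(K) = |K| c(K - K)`, `δ_L(K) = |K| c'(K - K)`, and the volume is strictly concave (to the power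
`1/3`) in the class of the bodies with a given difference body, up to translations: the case of
equality in the Brunn-Minkowski inequality. For (3) the support function of `K` is changed by a small odd
function supported near `u` and `-u`.
-/

namespace Pool.Agent.Results.MP_3d065d_co.NoRoundMinimizers

open Pool.Agent.TH219.DL Pool.Agent.K4H96.EX
open scoped Pointwise Matrix

theorem result :
    (∀ (K K0 K1 : Set (Fin 3 → ℝ)) (s : ℝ), Body K → Body K0 → Body K1 → 0 < s → s < 1 →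
      K0 - K0 = K - K → K1 - K1 = K - K → K = (1 - s) • K0 + s • K1 →
      (∀ v : Fin 3 → ℝ, K1 ≠ (fun x => x + v) '' K0) →
      (dT K0 < dT K ∧ dL K0 < dL K) ∨ (dT K1 < dT K ∧ dL K1 < dL K)) ∧
    (∀ (K C W : Set (Fin 3 → ℝ)) (t : ℝ), Body K → IsCompact C → Convex ℝ C → IsCompact W →
      Convex ℝ W → 0 < t → t < 1 → K = C + ((1 - t) • W + t • (-W)) →
      (∀ v : Fin 3 → ℝ, -W ≠ (fun x => x + v) '' W) →
      ∃ K' : Set (Fin 3 → ℝ), (K' = C + W ∨ K' = C - W) ∧ Body K' ∧ dT K' < dT K ∧ dL K' < dL K) ∧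
    (∀ K : Set (Fin 3 → ℝ), Body K → ∀ u : Fin 3 → ℝ, u ⬝ᵥ u = 1 → Round K u → Round K (-u) →
      ∀ η : ℝ, 0 < η → ∃ K' : Set (Fin 3 → ℝ), Body K' ∧ K' - K' = K - K ∧
        (∀ y ∈ K, ∃ y' ∈ K', nrm (y - y') ≤ η) ∧ (∀ y ∈ K', ∃ y' ∈ K, nrm (y - y') ≤ η) ∧
        dT K' < dT K ∧ dL K' < dL K) ∧
    (∀ K : Set (Fin 3 → ℝ), Body K → dT K = mn dT ∨ dL K = mn dL →
      ∀ u : Fin 3 → ℝ, u ⬝ᵥ u = 1 → ¬ (Round K u ∧ Round K (-u))) := by
  have hr : ∀ K : Set (Fin 3 → ℝ), Body K → ∀ u : Fin 3 → ℝ, u ⬝ᵥ u = 1 → Round K u →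
      Round K (-u) → ∀ η : ℝ, 0 < η → ∃ K' : Set (Fin 3 → ℝ), Body K' ∧ K' - K' = K - K ∧
        (∀ y ∈ K, ∃ y' ∈ K', nrm (y - y') ≤ η) ∧ (∀ y ∈ K', ∃ y' ∈ K, nrm (y - y') ≤ η) ∧
        dT K' < dT K ∧ dL K' < dL K :=
    fun K hK u hu h1 h2 η hη => round_not_min s_a s_b s_c s_d hK hu h1 h2 hη
  refine ⟨fun K K0 K1 s hK hK0 hK1 hs0 hs1 h0 h1 hs hne =>
    extreme (s_bm s_a) hK hK0 hK1 hs0 hs1 h0 h1 hs hne, ?_, hr, ?_⟩
  · intro K C W t hK hC hCv hW hWv ht0 ht1 hs hne
    rcases summand (s_bm s_a) hK hC hCv hW hWv ht0 ht1 hs hne with h | h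
    · exact ⟨C + W, Or.inl rfl, h.1, h.2.2⟩
    · exact ⟨C - W, Or.inr rfl, h.1, h.2.2⟩
  · rintro K hK hmin u hu ⟨h1, h2⟩
    obtain ⟨K', hK', -, -, -, hT, hL⟩ := hr K hK u hu h1 h2 1 one_pos
    rcases hmin with h | h
    · rw [h] at hT
      exact absurd (iInf₂_le (f := fun K (_ : Body K) => dT K) K' hK') (not_le.2 hT)
    · rw [h] at hL
      exact absurd (iInf₂_le (f := fun K (_ : Body K) => dL K) K' hK') (not_le.2 hL)

end Pool.Agent.Results.MP_3d065d_co.NoRoundMinimizers
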