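import Pool.Agent.K4H47.MM.Count

/-!
# Bodies with the smallest lattice or double lattice packing density: a polytope, or infinitely
many densest packings

Let `K ⊂ ℝ³` be a convex body that minimises `δ_L`. Every extreme point `p` of `K` is a touching
point in a densest lattice packing: some other member of the packing meets `K` exactly in a segment
(or point) that ends in `p`. If there are only `m < ∞` densest packing lattices, then `K` is a
polytope with at most `52 m` vertices; if there are countably many, then `K` has only countably many
extreme points and is not strictly convex. The same holds for `δ_{L*}` (the member of the packing can also be the reflection of
`K` in the point `p`; `79 m` vertices).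

Proof: if a small neighbourhood of `p` is cut off, then the critical determinant must drop. The
lattices of the denser packings of the cut bodies converge to a densest packing of `K`, their
members overlap `K` only near `p`, and this is impossible if the limit contact set is
two-dimensional, since then the overlaps are spread over this set.
-/

namespace Pool.Agent.Results.MP_3d065d_co.PolytopeOrInfinitelyMany

open Pool.Agent.TH219.DL Pool.Agent.K4H47.MM

theorem result (K : Set (Fin 3 → ℝ)) (hK : Body K) :
    (CutMin dL K → Struct K (DensL K) (TouchT K) 52) ∧
      (CutMin dLs K → Struct K (DensLs K) (fun S p => TouchT K S p ∨ TouchR K S p) 79) :=
  ⟨struct_L hK, struct_Ls hK⟩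

end Pool.Agent.Results.MP_3d065d_co.PolytopeOrInfinitelyMany
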